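import Pool.Agent.helper21.STA.PC

/-!
# fg: K0' (MP_70a088_an, rational class, FIRST STEP): NO CLOSING ==> THICK ROWS (helper74)

`F` is near the identity on `ball 0 4`, `V = F - id`, `‖V‖ ≤ ε`. If the orbit `z i = F^i z₀`, `i ≤ t`, stays in `ball 0 1` and has no closing
(`‖z j - z i‖ ≥ ‖V (z i)‖/4` for `i < j ≤ t`) then `F^i`, `i ≤ t`, is near the similarity `z₀ + u V z₀ ↦ z i + u V (z i)` for `‖u‖ ≤ K`, `ε K² ≤ c`, for ANY `t`. The same for backward orbits.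
PROOF. The cross ratio `X = (w - z)(F w - F z)/(V z V w)` changes at one step by the factor `D(z,w) D(Fz,Fw)/(D(z,Fz) D(w,Fw))`, `D` = divided difference of `F` (symmetric): a mixed second difference, so the relative change is `≤ C ε (‖u‖ + 2)² ‖V z‖²`; the sum of the `‖V (z i)‖²` is bounded by the area (disjoint discs).
-/

set_option autoImplicit false

open Complex Metric Set Filter Topology MeasureTheory

noncomputable section

namespace FGK

/-- Lipschitz bound from Cauchy. -/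
theorem LIP (g : ℂ → ℂ) (R r M : ℝ) (hrR : r < R) (hg : DifferentiableOn ℂ g (ball 0 R))
    (hM : ∀ z ∈ ball (0 : ℂ) R, ‖g z‖ ≤ M) : ∀ a ∈ ball (0 : ℂ) r, ∀ b ∈ ball (0 : ℂ) r, ‖g a - g b‖ ≤ M / (R - r) * ‖a - b‖ := by
  intro a ha b hb
  have hsub : ∀ x ∈ ball (0 : ℂ) r, ball x (R - r) ⊆ ball 0 R := by
    intro x hx y hy
    rw [mem_ball_zero_iff] at hx ⊢
    rw [mem_ball, dist_eq_norm] at hy
    have := norm_le_norm_add_norm_sub' y x
    linarith
  refine (convex_ball (0 : ℂ) r).norm_image_sub_le_of_norm_deriv_le (f := g) ?_ ?_ hb ha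
  · intro x hx
    refine (hg x ?_).differentiableAt (isOpen_ball.mem_nhds ?_)
    · exact ball_subset_ball hrR.le hx
    · exact ball_subset_ball hrR.le hx
  · intro x hx
    exact STA.CAU g x (R - r) M (by linarith) (hg.mono (hsub x hx)) fun w hw => hM w (hsub x hx hw)

theorem DSY (V : ℂ → ℂ) (a b : ℂ) : dslope V a b = dslope V b a := by
  rcases eq_or_ne a b with h | h
  · rw [h]
  · rw [dslope_of_ne _ h.symm, dslope_of_ne _ h, slope_comm]

theorem DSM (V : ℂ → ℂ) (a b : ℂ) : V b - V a = (b - a) * dslope V a b := by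
  have := sub_smul_dslope V a b
  rw [smul_eq_mul] at this
  exact this.symm

/-- bounds for divided differences. -/
theorem MIX (V : ℂ → ℂ) (ε : ℝ) (hV : DifferentiableOn ℂ V (ball 0 4)) (hb : ∀ z ∈ ball (0 : ℂ) 4, ‖V z‖ ≤ ε) :
    (∀ a ∈ ball (0 : ℂ) (7 / 2), ∀ b ∈ ball (0 : ℂ) (7 / 2), ‖dslope V a b‖ ≤ 2 * ε) ∧
    (∀ a ∈ ball (0 : ℂ) (7 / 2), ∀ b ∈ ball (0 : ℂ) 3, ∀ c ∈ ball (0 : ℂ) 3, ‖dslope V a b - dslope V a c‖ ≤ 4 * ε * ‖b - c‖) ∧
    (∀ a ∈ ball (0 : ℂ) 3, ∀ d ∈ ball (0 : ℂ) 3, ∀ b ∈ ball (0 : ℂ) 3, ∀ c ∈ ball (0 : ℂ) 3,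
      ‖(dslope V a b - dslope V a c) - (dslope V d b - dslope V d c)‖ ≤ 8 * ε * ‖b - c‖ * ‖a - d‖) := by
  have hd4 : ∀ a ∈ ball (0 : ℂ) (7 / 2), DifferentiableOn ℂ (dslope V a) (ball 0 4) := by
    intro a ha
    have : a ∈ ball (0 : ℂ) 4 := ball_subset_ball (by norm_num) ha
    exact (Complex.differentiableOn_dslope (isOpen_ball.mem_nhds this)).2 hV
  have h1 : ∀ a ∈ ball (0 : ℂ) (7 / 2), ∀ b ∈ ball (0 : ℂ) (7 / 2), ‖dslope V a b‖ ≤ 2 * ε := by
    intro a ha b hb'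
    rcases eq_or_ne b a with h | h
    · rw [h, dslope_same]
      have hsub : ball a (1 / 2) ⊆ ball 0 4 := by
        intro y hy
        rw [mem_ball_zero_iff] at ha ⊢
        rw [mem_ball, dist_eq_norm] at hy
        have := norm_le_norm_add_norm_sub' y a
        linarith
      have := STA.CAU V a (1 / 2) ε (by norm_num) (hV.mono hsub) fun w hw => hb w (hsub hw)
      linarith
    · have h2 := LIP V 4 (7 / 2) ε (by norm_num) hV hb b hb' a ha
      rw [DSM V a b, norm_mul] at h2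
      have h3 : 0 < ‖b - a‖ := norm_pos_iff.2 (sub_ne_zero.2 h)
      have h5 : ε / (4 - 7 / 2) = 2 * ε := by ring
      rw [h5] at h2
      have h4 : ‖b - a‖ * ‖dslope V a b‖ ≤ ‖b - a‖ * (2 * ε) := by linarith
      exact le_of_mul_le_mul_left h4 h3
  have h2 : ∀ a ∈ ball (0 : ℂ) (7 / 2), ∀ b ∈ ball (0 : ℂ) 3, ∀ c ∈ ball (0 : ℂ) 3, ‖dslope V a b - dslope V a c‖ ≤ 4 * ε * ‖b - c‖ := by
    intro a ha b hb' c hc
    have := LIP (dslope V a) (7 / 2) 3 (2 * ε) (by norm_num) ((hd4 a ha).mono (ball_subset_ball (by norm_num))) (h1 a ha) b hb' c hc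
    have h3 : 2 * ε / (7 / 2 - 3) = 4 * ε := by ring
    rwa [h3] at this
  refine ⟨h1, h2, ?_⟩
  intro a ha d hd b hb' c hc
  have hb7 : b ∈ ball (0 : ℂ) (7 / 2) := ball_subset_ball (by norm_num) hb'
  have hc7 : c ∈ ball (0 : ℂ) (7 / 2) := ball_subset_ball (by norm_num) hc
  have h3 := LIP (fun x => dslope V b x - dslope V c x) (7 / 2) 3 (4 * ε * ‖b - c‖) (by norm_num)
    (((hd4 b hb7).sub (hd4 c hc7)).mono (ball_subset_ball (by norm_num))) (by
      intro x hx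
      have := h2 x hx b hb' c hc
      rwa [DSY V x b, DSY V x c] at this) a ha d hd
  have h4 : 4 * ε * ‖b - c‖ / (7 / 2 - 3) = 8 * ε * ‖b - c‖ := by ring
  simp only [h4] at h3
  rwa [DSY V a b, DSY V a c, DSY V d b, DSY V d c]

/-- pure algebra: a sequence whose squares are almost constant and whose steps are small is almost constant. -/
theorem SEQ (u X κ : ℕ → ℂ) (δ : ℕ → ℝ) (η : ℝ) (t : ℕ) (hη0 : 0 ≤ η) (hη : η ≤ 1 / 10 ^ 4) (hδ : ∀ i, 0 ≤ δ i) (hS : ∑ i ∈ Finset.range t, δ i ≤ 1 / 10 ^ 4)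
    (h0 : u 0 ≠ 0) (hXκ : ∀ i ≤ t, ‖u i‖ ≤ 2 * ‖u 0‖ → X i = κ i * u i ^ 2 ∧ ‖κ i - 1‖ ≤ η)
    (hs : ∀ i < t, ‖u i‖ ≤ (101 / 100) * ‖u 0‖ → ‖u (i + 1) - u i‖ ≤ (1 / 100) * ‖u i‖ ∧ ‖X (i + 1) - X i‖ ≤ δ i * ‖X i‖) :
    ∀ i ≤ t, ‖u i - u 0‖ ≤ (1 / 100) * ‖u 0‖ := by
  have hu0 : 0 < ‖u 0‖ := norm_pos_iff.2 h0
  have hXκ0 := hXκ 0 (Nat.zero_le _) (by linarith)
  have hX0 : ‖X 0‖ ≤ (1 + η) * ‖u 0‖ ^ 2 := by
    rw [hXκ0.1, norm_mul, norm_pow]
    have h1 := hXκ0.2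
    have h2 : ‖κ 0‖ ≤ 1 + η := by
      have := norm_le_norm_add_norm_sub' (κ 0) 1
      rw [norm_one] at this
      linarith
    exact mul_le_mul_of_nonneg_right h2 (by positivity)
  have key : ∀ i ≤ t, ‖u i - u 0‖ ≤ (1 / 100) * ‖u 0‖ ∧ ‖X i - X 0‖ ≤ 2 * (∑ j ∈ Finset.range i, δ j) * ‖X 0‖ := by
    intro i
    induction i with
    | zero => intro _; simp
    | succ i ih =>
      intro hi
      obtain ⟨h1, h2⟩ := ih (by omega)
      have hui : ‖u i‖ ≤ (101 / 100) * ‖u 0‖ := by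
        have := norm_le_norm_add_norm_sub' (u i) (u 0)
        linarith
      obtain ⟨h3, h4⟩ := hs i (by omega) hui
      have hsum : ∑ j ∈ Finset.range (i + 1), δ j ≤ ∑ j ∈ Finset.range t, δ j :=
        Finset.sum_le_sum_of_subset_of_nonneg (Finset.range_mono hi) fun j _ _ => hδ j
      rw [Finset.sum_range_succ] at hsum ⊢
      have hSi : 0 ≤ ∑ j ∈ Finset.range i, δ j := Finset.sum_nonneg fun j _ => hδ j
      have hδi := hδ i
      set S := ∑ j ∈ Finset.range i, δ j with hSd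
      have hS1 : S + δ i ≤ 1 / 10 ^ 4 := hsum.trans hS
      have hXi : ‖X i‖ ≤ 2 * ‖X 0‖ := by
        have h5 := norm_le_norm_add_norm_sub' (X i) (X 0)
        have h6 : 2 * S * ‖X 0‖ ≤ 1 * ‖X 0‖ := mul_le_mul_of_nonneg_right (by linarith) (norm_nonneg _)
        linarith
      have hX1 : ‖X (i + 1) - X 0‖ ≤ 2 * (S + δ i) * ‖X 0‖ := by
        have h5 : X (i + 1) - X 0 = (X (i + 1) - X i) + (X i - X 0) := by ring
        have h6 := norm_add_le (X (i + 1) - X i) (X i - X 0)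
        rw [← h5] at h6
        have h7 : δ i * ‖X i‖ ≤ δ i * (2 * ‖X 0‖) := mul_le_mul_of_nonneg_left hXi hδi
        linarith
      refine ⟨?_, hX1⟩
      have hap : ‖u (i + 1) - u 0‖ ≤ (3 / 100) * ‖u 0‖ := by
        have h5 : u (i + 1) - u 0 = (u (i + 1) - u i) + (u i - u 0) := by ring
        have h6 := norm_add_le (u (i + 1) - u i) (u i - u 0)
        rw [← h5] at h6
        linarith
      have hu1 : ‖u (i + 1)‖ ≤ 2 * ‖u 0‖ := by
        have := norm_le_norm_add_norm_sub' (u (i + 1)) (u 0)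
        linarith
      obtain ⟨hX1', hκ1⟩ := hXκ (i + 1) hi hu1
      have hκ0 := hXκ0.2
      have hid : u (i + 1) ^ 2 - u 0 ^ 2 = (X (i + 1) - X 0) - (κ (i + 1) - 1) * u (i + 1) ^ 2 + (κ 0 - 1) * u 0 ^ 2 := by
        rw [hX1', hXκ0.1]
        ring
      have hn : ‖u (i + 1) ^ 2 - u 0 ^ 2‖ ≤ (1 / 1000) * ‖u 0‖ ^ 2 := by
        rw [hid]
        have h5 := norm_add_le ((X (i + 1) - X 0) - (κ (i + 1) - 1) * u (i + 1) ^ 2) ((κ 0 - 1) * u 0 ^ 2)
        have h6 := norm_sub_le (X (i + 1) - X 0) ((κ (i + 1) - 1) * u (i + 1) ^ 2)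
        rw [norm_mul, norm_pow] at h5 h6
        have h7 : ‖κ (i + 1) - 1‖ * ‖u (i + 1)‖ ^ 2 ≤ η * (2 * ‖u 0‖) ^ 2 :=
          mul_le_mul hκ1 (pow_le_pow_left₀ (norm_nonneg _) hu1 2) (by positivity) hη0
        have h8 : ‖κ 0 - 1‖ * ‖u 0‖ ^ 2 ≤ η * ‖u 0‖ ^ 2 := mul_le_mul_of_nonneg_right hκ0 (by positivity)
        have h9 : 2 * (S + δ i) * ‖X 0‖ ≤ 2 * (1 / 10 ^ 4) * ((1 + η) * ‖u 0‖ ^ 2) :=
          mul_le_mul (by linarith) hX0 (norm_nonneg _) (by norm_num)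
        have h10 : 0 ≤ ‖u 0‖ ^ 2 := by positivity
        nlinarith
      have hf : u (i + 1) ^ 2 - u 0 ^ 2 = (u (i + 1) - u 0) * (u (i + 1) + u 0) := by ring
      rw [hf, norm_mul] at hn
      have hlow : (19 / 10) * ‖u 0‖ ≤ ‖u (i + 1) + u 0‖ := by
        have h5 : (2 : ℂ) * u 0 = (u (i + 1) + u 0) - (u (i + 1) - u 0) := by ring
        have h6 : ‖(2 : ℂ) * u 0‖ ≤ ‖u (i + 1) + u 0‖ + ‖u (i + 1) - u 0‖ := by
          rw [h5]; exact norm_sub_le _ _
        rw [norm_mul] at h6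
        have h7 : ‖(2 : ℂ)‖ = 2 := by simp
        rw [h7] at h6
        linarith
      have h11 : ‖u (i + 1) - u 0‖ * ((19 / 10) * ‖u 0‖) ≤ (1 / 1000) * ‖u 0‖ ^ 2 :=
        (mul_le_mul_of_nonneg_left hlow (norm_nonneg _)).trans hn
      have h12 : ‖u (i + 1) - u 0‖ * (19 / 10) ≤ (1 / 1000) * ‖u 0‖ := by
        have h13 : (‖u (i + 1) - u 0‖ * (19 / 10)) * ‖u 0‖ ≤ ((1 / 1000) * ‖u 0‖) * ‖u 0‖ := by nlinarith
        exact le_of_mul_le_mul_right h13 hu0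
      linarith
  exact fun i hi => (key i hi).1

/-- position in steps. -/
def uu (V : ℂ → ℂ) (z w : ℂ) : ℂ := (w - z) / V z

/-- the cross ratio of `z, F z, w, F w`. -/
def XX (V : ℂ → ℂ) (z w : ℂ) : ℂ := (w - z) * ((w + V w) - (z + V z)) / (V z * V w)

/-- the ratio `XX/uu^2`. -/
def kk (V : ℂ → ℂ) (z w : ℂ) : ℂ := (1 + dslope V z w) * V z / V w

/-- one step: exact relations and estimates. -/
theorem STEP (V : ℂ → ℂ) (ε : ℝ) (hε : ε ≤ 1 / 1000) (hV : DifferentiableOn ℂ V (ball 0 4)) (hb : ∀ z ∈ ball (0 : ℂ) 4, ‖V z‖ ≤ ε)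
    (z w : ℂ) (hz : z ∈ ball (0 : ℂ) (5 / 2)) (hw : w ∈ ball (0 : ℂ) (5 / 2)) (hVz : V z ≠ 0) (hVw : V w ≠ 0) :
    V (z + V z) ≠ 0 ∧ V (w + V w) ≠ 0 ∧ XX V z w = kk V z w * uu V z w ^ 2 ∧
    ‖uu V (z + V z) (w + V w) - uu V z w‖ ≤ 5 * ε * ‖uu V z w‖ ∧
    ‖uu V (z + V z) (w + V w) - uu V z w‖ ≤ 5 * ε * ‖uu V (z + V z) (w + V w)‖ ∧
    ‖XX V (z + V z) (w + V w) - XX V z w‖ ≤ 12 * ε * (‖w - (z + V z)‖ * ‖z - (w + V w)‖) * ‖XX V z w‖ ∧
    ‖XX V (z + V z) (w + V w) - XX V z w‖ ≤ 12 * ε * (‖w - (z + V z)‖ * ‖z - (w + V w)‖) * ‖XX V (z + V z) (w + V w)‖ := by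
  obtain ⟨hM1, hM2, hM3⟩ := MIX V ε hV hb
  have hε0 : 0 ≤ ε := (norm_nonneg _).trans (hb z (ball_subset_ball (by norm_num) hz))
  have hz4 : z ∈ ball (0 : ℂ) 4 := ball_subset_ball (by norm_num) hz
  have hw4 : w ∈ ball (0 : ℂ) 4 := ball_subset_ball (by norm_num) hw
  have hz3 : z ∈ ball (0 : ℂ) 3 := ball_subset_ball (by norm_num) hz
  have hw3 : w ∈ ball (0 : ℂ) 3 := ball_subset_ball (by norm_num) hw
  have hF3 : ∀ x ∈ ball (0 : ℂ) (5 / 2), x + V x ∈ ball (0 : ℂ) 3 := by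
    intro x hx
    have h1 := hb x (ball_subset_ball (by norm_num) hx)
    rw [mem_ball_zero_iff] at hx ⊢
    have := norm_add_le x (V x)
    linarith
  have hFz := hF3 z hz
  have hFw := hF3 w hw
  have h7 : ∀ x ∈ ball (0 : ℂ) 3, x ∈ ball (0 : ℂ) (7 / 2) := fun x hx => ball_subset_ball (by norm_num) hx
  set a := z with ha
  set b := w with hbb
  set c := z + V z with hc
  set d := w + V w with hd
  have g1 := hM1 a (h7 a hz3) b (h7 b hw3)
  have g2 := hM1 a (h7 a hz3) c (h7 c hFz)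
  have g3 := hM1 d (h7 d hFw) b (h7 b hw3)
  have g4 := hM1 d (h7 d hFw) c (h7 c hFz)
  have p1 := hM2 d (h7 d hFw) b hw3 c hFz
  have p2 := hM2 b (h7 b hw3) a hz3 d hFw
  have p3 := hM3 a hz3 d hFw b hw3 c hFz
  set A := dslope V a b with hA
  set B := dslope V a c with hB
  set C := dslope V d b with hC
  set D := dslope V d c with hD
  have hC' : dslope V b d = C := DSY V b d
  have hD' : dslope V c d = D := DSY V c d
  have hA' : dslope V b a = A := DSY V b a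
  rw [hA', hC'] at p2
  -- exact relations
  have e1 : V c = V a * (1 + B) := by
    have := DSM V a c
    have h : c - a = V a := by rw [hc]; ring
    rw [h] at this
    linear_combination this
  have e2 : V d = V b * (1 + C) := by
    have := DSM V b d
    have h : d - b = V b := by rw [hd]; ring
    rw [h, hC'] at this
    linear_combination this
  have e3 : d - c = (b - a) * (1 + A) := by
    have := DSM V a b
    rw [hc, hd]
    linear_combination this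
  have e4 : (d + V d) - (c + V c) = (d - c) * (1 + D) := by
    have := DSM V c d
    rw [hD'] at this
    linear_combination this
  have n1 : ∀ x : ℂ, ‖x‖ ≤ 2 * ε → (99 / 100 : ℝ) ≤ ‖1 + x‖ ∧ ‖1 + x‖ ≤ 101 / 100 ∧ 1 + x ≠ 0 := by
    intro x hx
    have h1 : ‖(1 : ℂ)‖ ≤ ‖1 + x‖ + ‖x‖ := by
      have := norm_sub_le (1 + x) x
      simpa using this
    have h2 := norm_add_le (1 : ℂ) x
    rw [norm_one] at h1 h2
    refine ⟨by linarith, by linarith, fun h => ?_⟩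
    rw [h, norm_zero] at h1
    linarith
  obtain ⟨a1, a2, a3⟩ := n1 A g1
  obtain ⟨b1, b2, b3⟩ := n1 B g2
  obtain ⟨c1, c2, c3⟩ := n1 C g3
  obtain ⟨d1, d2, d3⟩ := n1 D g4
  have hVc : V c ≠ 0 := by rw [e1]; exact mul_ne_zero hVz b3
  have hVd : V d ≠ 0 := by rw [e2]; exact mul_ne_zero hVw c3
  have r1 : uu V c d = uu V a b * ((1 + A) / (1 + B)) := by
    unfold uu
    rw [e3, e1]
    field_simp
  have r2 : XX V c d = XX V a b * ((1 + A) * (1 + D) / ((1 + B) * (1 + C))) := by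
    unfold XX
    rw [e4, e1, e2, ← hc, ← hd, e3]
    field_simp
  have r3 : XX V a b = kk V a b * uu V a b ^ 2 := by
    unfold XX kk uu
    rw [← hc, ← hd, e3, ← hA]
    field_simp
  -- mixed difference
  have m1 : ‖(1 + A) * (1 + D) - (1 + B) * (1 + C)‖ ≤ 10 * ε * (‖b - c‖ * ‖a - d‖) := by
    have hid : (1 + A) * (1 + D) - (1 + B) * (1 + C) = ((A - B) - (C - D)) + (((A - B) - (C - D)) * C + (C - D) * (C - A)) := by ring
    rw [hid]
    have q1 := norm_add_le ((A - B) - (C - D)) (((A - B) - (C - D)) * C + (C - D) * (C - A))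
    have q2 := norm_add_le (((A - B) - (C - D)) * C) ((C - D) * (C - A))
    rw [norm_mul, norm_mul] at q2
    have q3 : ‖(A - B) - (C - D)‖ * ‖C‖ ≤ (8 * ε * ‖b - c‖ * ‖a - d‖) * (1 / 100) :=
      mul_le_mul p3 (g3.trans (by linarith)) (norm_nonneg _) (by positivity)
    have q4 : ‖C - D‖ * ‖C - A‖ ≤ (4 * ε * ‖b - c‖) * (4 * ε * ‖a - d‖) := by
      refine mul_le_mul p1 ?_ (norm_nonneg _) (by positivity)
      rw [norm_sub_rev]
      exact p2
    have q5 : (4 * ε * ‖b - c‖) * (4 * ε * ‖a - d‖) ≤ (16 / 1000) * (ε * (‖b - c‖ * ‖a - d‖)) := by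
      have : (4 * ε * ‖b - c‖) * (4 * ε * ‖a - d‖) = 16 * ε * (ε * (‖b - c‖ * ‖a - d‖)) := by ring
      rw [this]
      exact mul_le_mul_of_nonneg_right (by linarith) (by positivity)
    have q6 : 0 ≤ ε * (‖b - c‖ * ‖a - d‖) := by positivity
    have q7 : 8 * ε * ‖b - c‖ * ‖a - d‖ = 8 * (ε * (‖b - c‖ * ‖a - d‖)) := by ring
    rw [q7] at q3 p3
    nlinarith
  refine ⟨hVc, hVd, r3, ?_, ?_, ?_, ?_⟩
  · rw [r1]
    have h1 : uu V a b * ((1 + A) / (1 + B)) - uu V a b = uu V a b * ((A - B) / (1 + B)) := by field_simp; ring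
    rw [h1, norm_mul, mul_comm]
    refine mul_le_mul_of_nonneg_right ?_ (norm_nonneg _)
    rw [norm_div, div_le_iff₀ (by linarith)]
    have := norm_sub_le A B
    nlinarith
  · have h1 : uu V a b = uu V c d * ((1 + B) / (1 + A)) := by rw [r1]; field_simp
    have h2 : uu V c d - uu V a b = uu V c d * ((A - B) / (1 + A)) := by
      rw [h1]; field_simp; ring
    rw [h2, norm_mul, mul_comm]
    refine mul_le_mul_of_nonneg_right ?_ (norm_nonneg _)
    rw [norm_div, div_le_iff₀ (by linarith)]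
    have := norm_sub_le A B
    nlinarith
  · have h1 : XX V c d - XX V a b = XX V a b * (((1 + A) * (1 + D) - (1 + B) * (1 + C)) / ((1 + B) * (1 + C))) := by
      rw [r2]; field_simp
    rw [h1, norm_mul, mul_comm]
    refine mul_le_mul_of_nonneg_right ?_ (norm_nonneg _)
    rw [norm_div, norm_mul (1 + B), div_le_iff₀ (by positivity)]
    have h2 : (98 / 100 : ℝ) ≤ ‖1 + B‖ * ‖1 + C‖ := by nlinarith
    have h3 : 0 ≤ ε * (‖b - c‖ * ‖a - d‖) := by positivity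
    nlinarith
  · have h0 : XX V a b = XX V c d * ((1 + B) * (1 + C) / ((1 + A) * (1 + D))) := by
      rw [r2]; field_simp
    have h1 : XX V c d - XX V a b = XX V c d * (((1 + A) * (1 + D) - (1 + B) * (1 + C)) / ((1 + A) * (1 + D))) := by
      rw [h0]; field_simp
    rw [h1, norm_mul, mul_comm]
    refine mul_le_mul_of_nonneg_right ?_ (norm_nonneg _)
    rw [norm_div, norm_mul (1 + A), div_le_iff₀ (by positivity)]
    have h2 : (98 / 100 : ℝ) ≤ ‖1 + A‖ * ‖1 + D‖ := by nlinarith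
    have h3 : 0 ≤ ε * (‖b - c‖ * ‖a - d‖) := by positivity
    nlinarith

/-- AREA: no closing ==> the sum of the squares of the steps is bounded. -/
theorem AREA (V : ℂ → ℂ) (ε : ℝ) (hε : ε ≤ 1 / 1000) (hV : DifferentiableOn ℂ V (ball 0 4)) (hb : ∀ z ∈ ball (0 : ℂ) 4, ‖V z‖ ≤ ε)
    (z : ℕ → ℂ) (t : ℕ) (hz : ∀ i ≤ t, z i ∈ ball (0 : ℂ) 1) (hcl : ∀ i j : ℕ, i < j → j ≤ t → (1 / 5) * ‖V (z i)‖ ≤ ‖z j - z i‖) :
    ∑ i ∈ Finset.range (t + 1), ‖V (z i)‖ ^ 2 ≤ 484 := by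
  have hε0 : 0 ≤ ε := (norm_nonneg _).trans (hb 0 (mem_ball_self (by norm_num)))
  have hL : ∀ a ∈ ball (0 : ℂ) 3, ∀ b ∈ ball (0 : ℂ) 3, ‖V a - V b‖ ≤ ε * ‖a - b‖ := by
    intro a ha b hb'
    have := LIP V 4 3 ε (by norm_num) hV hb a ha b hb'
    have h : ε / (4 - 3) = ε := by ring
    rwa [h] at this
  have hdis : ∀ i j : ℕ, i < j → j ≤ t → Disjoint (ball (z i) (‖V (z i)‖ / 11)) (ball (z j) (‖V (z j)‖ / 11)) := by
    intro i j hij hj
    apply ball_disjoint_ball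
    rw [dist_eq_norm]
    have h1 := hcl i j hij hj
    have h2 := hL (z j) (ball_subset_ball (by norm_num) (hz j hj)) (z i) (ball_subset_ball (by norm_num) (hz i (by omega)))
    have h3 := norm_le_norm_add_norm_sub' (V (z j)) (V (z i))
    rw [norm_sub_rev (z i) (z j)]
    have h4 : ε * ‖z j - z i‖ ≤ (1 / 1000) * ‖z j - z i‖ := mul_le_mul_of_nonneg_right hε (norm_nonneg _)
    have h5 := norm_nonneg (z j - z i)
    linarith
  have hpd : Set.PairwiseDisjoint (↑(Finset.range (t + 1)) : Set ℕ) (fun i => ball (z i) (‖V (z i)‖ / 11)) := by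
    intro i hi j hj hij
    rw [Finset.mem_coe, Finset.mem_range] at hi hj
    rcases lt_or_gt_of_ne hij with h | h
    · exact hdis i j h (by omega)
    · exact (hdis j i h (by omega)).symm
  have h1 : ∑ i ∈ Finset.range (t + 1), volume (ball (z i) (‖V (z i)‖ / 11)) ≤ volume (ball (0 : ℂ) 2) := by
    rw [← measure_biUnion_finset hpd (fun _ _ => measurableSet_ball)]
    refine measure_mono (iUnion₂_subset fun i hi => ?_)
    rw [Finset.mem_range] at hi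
    intro y hy
    have h2 := hz i (by omega)
    have h3 := hb (z i) (ball_subset_ball (by norm_num) h2)
    rw [mem_ball_zero_iff] at h2 ⊢
    rw [mem_ball, dist_eq_norm] at hy
    have := norm_le_norm_add_norm_sub' y (z i)
    linarith
  simp only [Complex.volume_ball] at h1
  rw [← Finset.sum_mul] at h1
  have h2 : (∑ i ∈ Finset.range (t + 1), ENNReal.ofReal (‖V (z i)‖ / 11) ^ 2) = ENNReal.ofReal (∑ i ∈ Finset.range (t + 1), (‖V (z i)‖ / 11) ^ 2) := by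
    rw [ENNReal.ofReal_sum_of_nonneg fun i _ => by positivity]
    refine Finset.sum_congr rfl fun i _ => ?_
    rw [ENNReal.ofReal_pow (by positivity)]
  rw [h2] at h1
  have h3 : ENNReal.ofReal 2 ^ 2 = ENNReal.ofReal 4 := by
    rw [← ENNReal.ofReal_pow (by norm_num)]
    norm_num
  rw [h3] at h1
  have h4 : (ENNReal.ofReal (∑ i ∈ Finset.range (t + 1), (‖V (z i)‖ / 11) ^ 2) * (NNReal.pi : ENNReal)).toReal ≤ (ENNReal.ofReal 4 * (NNReal.pi : ENNReal)).toReal :=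
    ENNReal.toReal_mono (ENNReal.mul_ne_top ENNReal.ofReal_ne_top ENNReal.coe_ne_top) h1
  rw [ENNReal.toReal_mul, ENNReal.toReal_mul, ENNReal.toReal_ofReal (Finset.sum_nonneg fun i _ => by positivity), ENNReal.toReal_ofReal (by norm_num)] at h4
  have h5 : ((NNReal.pi : ENNReal)).toReal = Real.pi := by simp
  rw [h5] at h4
  have h6 := le_of_mul_le_mul_right h4 Real.pi_pos
  have h7 : ∑ i ∈ Finset.range (t + 1), (‖V (z i)‖ / 11) ^ 2 = (∑ i ∈ Finset.range (t + 1), ‖V (z i)‖ ^ 2) / 121 := by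
    rw [Finset.sum_div]
    refine Finset.sum_congr rfl fun i _ => ?_
    ring
  rw [h7] at h6
  linarith

/-- one pair of points at distance at most `3K` steps. -/
theorem PAIR (V : ℂ → ℂ) (ε K : ℝ) (hK : 1 ≤ K) (hc : ε * K ^ 2 ≤ 1 / 10 ^ 10) (hV : DifferentiableOn ℂ V (ball 0 4)) (hb : ∀ z ∈ ball (0 : ℂ) 4, ‖V z‖ ≤ ε)
    (z w : ℂ) (hz : z ∈ ball (0 : ℂ) (3 / 2)) (hVz : V z ≠ 0) (hu : ‖uu V z w‖ ≤ 3 * K) :
    w ∈ ball (0 : ℂ) 2 ∧ ‖w - z‖ = ‖uu V z w‖ * ‖V z‖ ∧ V w ≠ 0 ∧ ‖kk V z w - 1‖ ≤ 1 / 10 ^ 4 ∧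
    12 * ε * (‖w - (z + V z)‖ * ‖z - (w + V w)‖) ≤ 300 * (ε * K ^ 2) * ‖V z‖ ^ 2 := by
  have hε0 : 0 ≤ ε := (norm_nonneg _).trans (hb z (ball_subset_ball (by norm_num) hz))
  have hεK : ε * K ≤ 1 / 10 ^ 10 := by
    have : ε * K ≤ ε * K ^ 2 := mul_le_mul_of_nonneg_left (by nlinarith) hε0
    linarith
  have hε : ε ≤ 1 / 10 ^ 10 := by nlinarith
  have hVn : 0 < ‖V z‖ := norm_pos_iff.2 hVz
  have hVε : ‖V z‖ ≤ ε := hb z (ball_subset_ball (by norm_num) hz)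
  have hd : ‖w - z‖ = ‖uu V z w‖ * ‖V z‖ := by
    unfold uu
    rw [norm_div]
    field_simp
  have hdl : ‖w - z‖ ≤ 3 * (ε * K) := by
    rw [hd]
    have := mul_le_mul hu hVε (norm_nonneg _) (by positivity)
    linarith
  have hw2 : w ∈ ball (0 : ℂ) 2 := by
    rw [mem_ball_zero_iff] at hz ⊢
    have := norm_le_norm_add_norm_sub' w z
    linarith
  obtain ⟨hM1, -, -⟩ := MIX V ε hV hb
  have hg := hM1 z (ball_subset_ball (by norm_num) hz) w (ball_subset_ball (by norm_num) hw2)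
  set g := dslope V z w with hgd
  have hVw : V w = V z * (1 + g * uu V z w) := by
    have := DSM V z w
    have h1 : V z * (uu V z w) = w - z := by
      unfold uu
      field_simp
    rw [← hgd] at this
    linear_combination this - g * h1
  have hgu : ‖g * uu V z w‖ ≤ 6 * (ε * K) := by
    rw [norm_mul]
    have := mul_le_mul hg hu (norm_nonneg _) (by positivity)
    linarith
  have h1 : (99 / 100 : ℝ) ≤ ‖1 + g * uu V z w‖ := by
    have h2 : ‖(1 : ℂ)‖ ≤ ‖1 + g * uu V z w‖ + ‖g * uu V z w‖ := by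
      have := norm_sub_le (1 + g * uu V z w) (g * uu V z w)
      simpa using this
    rw [norm_one] at h2
    linarith
  have h1' : ‖1 + g * uu V z w‖ ≤ 101 / 100 := by
    have := norm_add_le (1 : ℂ) (g * uu V z w)
    rw [norm_one] at this
    linarith
  have hne : 1 + g * uu V z w ≠ 0 := by
    intro h
    rw [h, norm_zero] at h1
    linarith
  have hVw0 : V w ≠ 0 := by
    rw [hVw]
    exact mul_ne_zero hVz hne
  refine ⟨hw2, hd, hVw0, ?_, ?_⟩
  · have h3 : kk V z w - 1 = g * (1 - uu V z w) / (1 + g * uu V z w) := by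
      unfold kk
      rw [hVw, ← hgd]
      field_simp
      ring
    rw [h3, norm_div, norm_mul, div_le_iff₀ (by linarith)]
    have h4 : ‖1 - uu V z w‖ ≤ 1 + 3 * K := by
      have := norm_sub_le (1 : ℂ) (uu V z w)
      rw [norm_one] at this
      linarith
    have h5 : ‖g‖ * ‖1 - uu V z w‖ ≤ (2 * ε) * (1 + 3 * K) := mul_le_mul hg h4 (norm_nonneg _) (by positivity)
    nlinarith
  · have h3 : ‖w - (z + V z)‖ ≤ 4 * K * ‖V z‖ := by
      have h4 : w - (z + V z) = (w - z) - V z := by ring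
      rw [h4]
      have h5 := norm_sub_le (w - z) (V z)
      rw [hd] at h5
      nlinarith
    have h4 : ‖z - (w + V w)‖ ≤ 5 * K * ‖V z‖ := by
      have h5 : z - (w + V w) = -(w - z) - V w := by ring
      rw [h5]
      have h6 := norm_sub_le (-(w - z)) (V w)
      rw [norm_neg, hd, hVw, norm_mul] at h6
      have h7 : ‖V z‖ * ‖1 + g * uu V z w‖ ≤ ‖V z‖ * (101 / 100) := mul_le_mul_of_nonneg_left h1' hVn.le
      rw [hVw]
      nlinarith
    have h5 : ‖w - (z + V z)‖ * ‖z - (w + V w)‖ ≤ (4 * K * ‖V z‖) * (5 * K * ‖V z‖) := mul_le_mul h3 h4 (norm_nonneg _) (by positivity)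
    have h6 : 12 * ε * (‖w - (z + V z)‖ * ‖z - (w + V w)‖) ≤ 12 * ε * ((4 * K * ‖V z‖) * (5 * K * ‖V z‖)) := mul_le_mul_of_nonneg_left h5 (by positivity)
    have h7 : 12 * ε * ((4 * K * ‖V z‖) * (5 * K * ‖V z‖)) = 240 * (ε * K ^ 2) * ‖V z‖ ^ 2 := by ring
    have h8 : 0 ≤ (ε * K ^ 2) * ‖V z‖ ^ 2 := by positivity
    nlinarith

/-- K0' FORWARD. -/
theorem K0F (V : ℂ → ℂ) (ε K : ℝ) (hK : 1 ≤ K) (hc : ε * K ^ 2 ≤ 1 / 10 ^ 10) (hV : DifferentiableOn ℂ V (ball 0 4)) (hb : ∀ z ∈ ball (0 : ℂ) 4, ‖V z‖ ≤ ε)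
    (z w : ℕ → ℂ) (t : ℕ) (hz : ∀ i ≤ t, z i ∈ ball (0 : ℂ) 1) (hzs : ∀ i < t, z (i + 1) = z i + V (z i)) (hws : ∀ i < t, w (i + 1) = w i + V (w i))
    (h0 : V (z 0) ≠ 0) (hcl : ∀ i j : ℕ, i < j → j ≤ t → (1 / 5) * ‖V (z i)‖ ≤ ‖z j - z i‖) (hw0 : ‖w 0 - z 0‖ ≤ K * ‖V (z 0)‖) :
    ∀ i ≤ t, V (z i) ≠ 0 ∧ w i ∈ ball (0 : ℂ) 2 ∧ ‖uu V (z i) (w i) - uu V (z 0) (w 0)‖ ≤ (1 / 100) * ‖uu V (z 0) (w 0)‖ := by
  have hε0 : 0 ≤ ε := (norm_nonneg _).trans (hb 0 (mem_ball_self (by norm_num)))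
  have hε : ε ≤ 1 / 10 ^ 10 := (le_mul_of_one_le_right hε0 (by nlinarith)).trans hc
  have hε' : ε ≤ 1 / 1000 := hε.trans (by norm_num)
  have hVz : ∀ i ≤ t, V (z i) ≠ 0 := by
    intro i
    induction i with
    | zero => intro _; exact h0
    | succ i ih =>
      intro hi
      have h1 := ih (by omega)
      have h2 := hz i (by omega)
      obtain ⟨h3, -⟩ := STEP V ε hε' hV hb (z i) (z i) (ball_subset_ball (by norm_num) h2) (ball_subset_ball (by norm_num) h2) h1 h1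
      rw [hzs i (by omega)]
      exact h3
  have hz32 : ∀ i ≤ t, z i ∈ ball (0 : ℂ) (3 / 2) := fun i hi => ball_subset_ball (by norm_num) (hz i hi)
  have hu0 : ‖uu V (z 0) (w 0)‖ ≤ K := by
    unfold uu
    rw [norm_div, div_le_iff₀ (norm_pos_iff.2 h0)]
    exact hw0
  by_cases hne : w 0 = z 0
  · have hall : ∀ i ≤ t, w i = z i := by
      intro i
      induction i with
      | zero => intro _; exact hne
      | succ i ih =>
        intro hi
        rw [hws i (by omega), hzs i (by omega), ih (by omega)]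
    intro i hi
    refine ⟨hVz i hi, ?_, ?_⟩
    · rw [hall i hi]; exact ball_subset_ball (by norm_num) (hz i hi)
    · rw [hall i hi, hne]; simp [uu]
  have hune : uu V (z 0) (w 0) ≠ 0 := div_ne_zero (sub_ne_zero.2 hne) h0
  have hpair : ∀ i ≤ t, ‖uu V (z i) (w i)‖ ≤ 2 * ‖uu V (z 0) (w 0)‖ → ‖uu V (z i) (w i)‖ ≤ 3 * K := by
    intro i _ h
    linarith
  have hA := AREA V ε hε' hV hb z t hz hcl
  have key := SEQ (fun i => uu V (z i) (w i)) (fun i => XX V (z i) (w i)) (fun i => kk V (z i) (w i)) (fun i => 300 * (ε * K ^ 2) * ‖V (z i)‖ ^ 2) (1 / 10 ^ 4) t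
    (by norm_num) le_rfl (fun i => by positivity) (by
      rw [← Finset.mul_sum]
      have h1 : ∑ i ∈ Finset.range t, ‖V (z i)‖ ^ 2 ≤ 484 :=
        (Finset.sum_le_sum_of_subset_of_nonneg (Finset.range_mono (Nat.le_succ t)) fun j _ _ => by positivity).trans hA
      have h2 : 0 ≤ ∑ i ∈ Finset.range t, ‖V (z i)‖ ^ 2 := Finset.sum_nonneg fun j _ => by positivity
      have h3 : 300 * (ε * K ^ 2) * ∑ i ∈ Finset.range t, ‖V (z i)‖ ^ 2 ≤ (300 * (1 / 10 ^ 10)) * 484 :=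
        mul_le_mul (by linarith) h1 h2 (by norm_num)
      linarith) hune (by
      intro i hi hui
      obtain ⟨p1, p2, p3, p4, p5⟩ := PAIR V ε K hK hc hV hb (z i) (w i) (hz32 i hi) (hVz i hi) (hpair i hi hui)
      obtain ⟨-, -, s3, -⟩ := STEP V ε hε' hV hb (z i) (w i) (ball_subset_ball (by norm_num) (hz i hi)) (ball_subset_ball (by norm_num) p1) (hVz i hi) p3
      exact ⟨s3, p4⟩) (by
      intro i hi hui
      obtain ⟨p1, p2, p3, p4, p5⟩ := PAIR V ε K hK hc hV hb (z i) (w i) (hz32 i hi.le) (hVz i hi.le) (hpair i hi.le (by linarith [norm_nonneg (uu V (z 0) (w 0))]))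
      obtain ⟨-, -, -, s4, -, s6, -⟩ := STEP V ε hε' hV hb (z i) (w i) (ball_subset_ball (by norm_num) (hz i hi.le)) (ball_subset_ball (by norm_num) p1) (hVz i hi.le) p3
      rw [← hzs i hi, ← hws i hi] at s4 s6
      refine ⟨s4.trans (mul_le_mul_of_nonneg_right (by linarith) (norm_nonneg _)), ?_⟩
      have h6 : 12 * ε * (‖w i - z (i + 1)‖ * ‖z i - w (i + 1)‖) ≤ 300 * (ε * K ^ 2) * ‖V (z i)‖ ^ 2 := by
        rw [hzs i hi, hws i hi]; exact p5
      exact s6.trans (mul_le_mul_of_nonneg_right h6 (norm_nonneg _)))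
  intro i hi
  have h1 : ‖uu V (z i) (w i) - uu V (z 0) (w 0)‖ ≤ (1 / 100) * ‖uu V (z 0) (w 0)‖ := key i hi
  refine ⟨hVz i hi, ?_, h1⟩
  have h2 : ‖uu V (z i) (w i)‖ ≤ 3 * K := by
    have h3 := norm_le_norm_add_norm_sub' (uu V (z i) (w i)) (uu V (z 0) (w 0))
    linarith
  exact (PAIR V ε K hK hc hV hb (z i) (w i) (hz32 i hi) (hVz i hi) h2).1

/-- K0' BACKWARD: `z i = F (z (i + 1))`, `w i = F (w (i + 1))`. -/
theorem K0B (V : ℂ → ℂ) (ε K : ℝ) (hK : 1 ≤ K) (hc : ε * K ^ 2 ≤ 1 / 10 ^ 10) (hV : DifferentiableOn ℂ V (ball 0 4)) (hb : ∀ z ∈ ball (0 : ℂ) 4, ‖V z‖ ≤ ε)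
    (z w : ℕ → ℂ) (t : ℕ) (hz : ∀ i ≤ t, z i ∈ ball (0 : ℂ) 1) (hzs : ∀ i < t, z i = z (i + 1) + V (z (i + 1))) (hws : ∀ i < t, w i = w (i + 1) + V (w (i + 1)))
    (hw4 : ∀ i ≤ t, w i ∈ ball (0 : ℂ) (9 / 4) → ∀ j, j = i + 1 → j ≤ t → w j ∈ ball (0 : ℂ) 4)
    (h0 : V (z 0) ≠ 0) (hcl : ∀ i j : ℕ, i < j → j ≤ t → (1 / 5) * ‖V (z i)‖ ≤ ‖z j - z i‖) (hw0 : ‖w 0 - z 0‖ ≤ K * ‖V (z 0)‖) :
    ∀ i ≤ t, V (z i) ≠ 0 ∧ w i ∈ ball (0 : ℂ) 2 ∧ ‖uu V (z i) (w i) - uu V (z 0) (w 0)‖ ≤ (1 / 100) * ‖uu V (z 0) (w 0)‖ := by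
  have hε0 : 0 ≤ ε := (norm_nonneg _).trans (hb 0 (mem_ball_self (by norm_num)))
  have hε : ε ≤ 1 / 10 ^ 10 := (le_mul_of_one_le_right hε0 (by nlinarith)).trans hc
  have hε' : ε ≤ 1 / 1000 := hε.trans (by norm_num)
  have hL : ∀ a ∈ ball (0 : ℂ) 3, ∀ b ∈ ball (0 : ℂ) 3, ‖V a - V b‖ ≤ ε * ‖a - b‖ := by
    intro a ha b hb'
    have := LIP V 4 3 ε (by norm_num) hV hb a ha b hb'
    have h : ε / (4 - 3) = ε := by ring
    rwa [h] at this
  have hz3 : ∀ i ≤ t, z i ∈ ball (0 : ℂ) 3 := fun i hi => ball_subset_ball (by norm_num) (hz i hi)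
  have hVz : ∀ i ≤ t, V (z i) ≠ 0 := by
    intro i
    induction i with
    | zero => intro _; exact h0
    | succ i ih =>
      intro hi h1
      have h2 := hzs i (by omega)
      rw [h1, add_zero] at h2
      exact ih (by omega) (h2 ▸ h1)
  have hz32 : ∀ i ≤ t, z i ∈ ball (0 : ℂ) (3 / 2) := fun i hi => ball_subset_ball (by norm_num) (hz i hi)
  have hu0 : ‖uu V (z 0) (w 0)‖ ≤ K := by
    unfold uu
    rw [norm_div, div_le_iff₀ (norm_pos_iff.2 h0)]
    exact hw0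
  -- next point of `w` is near
  have hnext : ∀ i < t, w i ∈ ball (0 : ℂ) 2 → w (i + 1) ∈ ball (0 : ℂ) (9 / 4) := by
    intro i hi h
    have h1 := hw4 i hi.le (ball_subset_ball (by norm_num) h) (i + 1) rfl hi
    have h2 := hb _ h1
    have h3 := hws i hi
    rw [mem_ball_zero_iff] at h ⊢
    have h4 : w (i + 1) = w i - V (w (i + 1)) := by linear_combination -h3
    rw [h4]
    have := norm_sub_le (w i) (V (w (i + 1)))
    linarith
  by_cases hne : w 0 = z 0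
  · have hall : ∀ i ≤ t, w i = z i := by
      intro i
      induction i with
      | zero => intro _; exact hne
      | succ i ih =>
        intro hi
        have h1 := ih (by omega)
        have h2 : w i ∈ ball (0 : ℂ) 2 := by rw [h1]; exact ball_subset_ball (by norm_num) (hz i (by omega))
        have h3 := hnext i (by omega) h2
        have h4 := hL _ (ball_subset_ball (by norm_num) h3) _ (hz3 (i + 1) hi)
        have h5 : w (i + 1) - z (i + 1) = -(V (w (i + 1)) - V (z (i + 1))) := by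
          linear_combination -(hws i (by omega)) + hzs i (by omega) + h1
        have h6 : ‖w (i + 1) - z (i + 1)‖ ≤ ε * ‖w (i + 1) - z (i + 1)‖ := by
          nth_rewrite 1 [h5]
          rw [norm_neg]
          exact h4
        have h7 : ‖w (i + 1) - z (i + 1)‖ = 0 := by
          have := norm_nonneg (w (i + 1) - z (i + 1))
          nlinarith
        exact sub_eq_zero.1 (norm_eq_zero.1 h7)
    intro i hi
    refine ⟨hVz i hi, ?_, ?_⟩
    · rw [hall i hi]; exact ball_subset_ball (by norm_num) (hz i hi)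
    · rw [hall i hi, hne]; simp [uu]
  have hune : uu V (z 0) (w 0) ≠ 0 := div_ne_zero (sub_ne_zero.2 hne) h0
  have hun : 0 < ‖uu V (z 0) (w 0)‖ := norm_pos_iff.2 hune
  have hpair : ∀ i ≤ t, ‖uu V (z i) (w i)‖ ≤ 2 * ‖uu V (z 0) (w 0)‖ → ‖uu V (z i) (w i)‖ ≤ 3 * K := by
    intro i _ h
    linarith
  have hA := AREA V ε hε' hV hb z t hz hcl
  have key := SEQ (fun i => uu V (z i) (w i)) (fun i => XX V (z i) (w i)) (fun i => kk V (z i) (w i)) (fun i => 300 * (ε * K ^ 2) * ‖V (z (i + 1))‖ ^ 2) (1 / 10 ^ 4) t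
    (by norm_num) le_rfl (fun i => by positivity) (by
      rw [← Finset.mul_sum]
      have h1 : ∑ i ∈ Finset.range t, ‖V (z (i + 1))‖ ^ 2 ≤ 484 := by
        rw [Finset.sum_range_succ'] at hA
        have : 0 ≤ ‖V (z 0)‖ ^ 2 := by positivity
        linarith
      have h2 : 0 ≤ ∑ i ∈ Finset.range t, ‖V (z (i + 1))‖ ^ 2 := Finset.sum_nonneg fun j _ => by positivity
      have h3 : 300 * (ε * K ^ 2) * ∑ i ∈ Finset.range t, ‖V (z (i + 1))‖ ^ 2 ≤ (300 * (1 / 10 ^ 10)) * 484 :=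
        mul_le_mul (by linarith) h1 h2 (by norm_num)
      linarith) hune (by
      intro i hi hui
      obtain ⟨p1, p2, p3, p4, p5⟩ := PAIR V ε K hK hc hV hb (z i) (w i) (hz32 i hi) (hVz i hi) (hpair i hi hui)
      obtain ⟨-, -, s3, -⟩ := STEP V ε hε' hV hb (z i) (w i) (ball_subset_ball (by norm_num) (hz i hi)) (ball_subset_ball (by norm_num) p1) (hVz i hi) p3
      exact ⟨s3, p4⟩) (by
      intro i hi hui
      have hi1 : i + 1 ≤ t := hi
      obtain ⟨p1, p2, p3, p4, p5⟩ := PAIR V ε K hK hc hV hb (z i) (w i) (hz32 i hi.le) (hVz i hi.le) (hpair i hi.le (by linarith))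
      have hw1 := hnext i hi p1
      -- distance at the next point
      have h4 := hL _ (ball_subset_ball (by norm_num) hw1) _ (hz3 (i + 1) hi1)
      have hVw1 : V (w (i + 1)) ≠ 0 := by
        intro h
        have h1 := hws i hi
        rw [h, add_zero] at h1
        exact p3 (h1 ▸ h)
      obtain ⟨-, -, -, s4, s5, s6, s7⟩ := STEP V ε hε' hV hb (z (i + 1)) (w (i + 1)) (ball_subset_ball (by norm_num) (hz (i + 1) hi1)) (ball_subset_ball (by norm_num) hw1) (hVz (i + 1) hi1) hVw1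
      rw [← hzs i hi, ← hws i hi] at s4 s5 s6 s7
      have hu1 : ‖uu V (z (i + 1)) (w (i + 1))‖ ≤ 2 * ‖uu V (z 0) (w 0)‖ := by
        have h5 := norm_le_norm_add_norm_sub' (uu V (z (i + 1)) (w (i + 1))) (uu V (z i) (w i))
        rw [norm_sub_rev] at h5
        have h6 : 5 * ε * ‖uu V (z i) (w i)‖ ≤ (1 / 100) * ‖uu V (z i) (w i)‖ := mul_le_mul_of_nonneg_right (by linarith) (norm_nonneg _)
        linarith
      obtain ⟨q1, q2, q3, q4, q5⟩ := PAIR V ε K hK hc hV hb (z (i + 1)) (w (i + 1)) (hz32 (i + 1) hi1) (hVz (i + 1) hi1) (hpair (i + 1) hi1 hu1)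
      rw [← hzs i hi, ← hws i hi] at q5
      refine ⟨?_, ?_⟩
      · rw [norm_sub_rev]
        exact s5.trans (mul_le_mul_of_nonneg_right (by linarith) (norm_nonneg _))
      · rw [norm_sub_rev]
        exact s7.trans (mul_le_mul_of_nonneg_right q5 (norm_nonneg _)))
  intro i hi
  have h1 : ‖uu V (z i) (w i) - uu V (z 0) (w 0)‖ ≤ (1 / 100) * ‖uu V (z 0) (w 0)‖ := key i hi
  refine ⟨hVz i hi, ?_, h1⟩
  have h2 : ‖uu V (z i) (w i)‖ ≤ 3 * K := by
    have h3 := norm_le_norm_add_norm_sub' (uu V (z i) (w i)) (uu V (z 0) (w 0))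
    linarith
  exact (PAIR V ε K hK hc hV hb (z i) (w i) (hz32 i hi) (hVz i hi) h2).1

end FGK
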